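import Mathlib

/-!
# A filtration lowered by a nilpotent operator and its second moment
-/

set_option autoImplicit false

open Module

namespace Pool.Agent.V2450.Fil

universe u v

variable {F : Type u} [Field F] {V : Type v} [AddCommGroup V] [Module F V]

/-- `P` is a finite increasing filtration and `N P_k ⊆ P_(k - 2)`. -/
structure Lowered (N : Module.End F V) (P : ℤ → Submodule F V) : Prop where
  mono : Monotone P
  bot : ∃ a, P a = ⊥
  top : ∃ a, P a = ⊤
  low : ∀ k, ∀ x ∈ P k, N x ∈ P (k - 2)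

/-- The dimension of `P_k`. -/
noncomputable def D (P : ℤ → Submodule F V) (k : ℤ) : ℤ := finrank F (P k)

/-- The rank of `N ^ e`. -/
noncomputable def rk (N : Module.End F V) (e : ℕ) : ℤ := finrank F (LinearMap.range (N ^ e))

/-- The elements of `P_e` whose image under `N ^ e` is in `P_(-e-1)`. -/
def K (N : Module.End F V) (P : ℤ → Submodule F V) (e : ℕ) : Submodule F V :=
  P e ⊓ (P (-(e : ℤ) - 1)).comap (N ^ e)

/-- The dimension of the kernel of `N ^ e : gr_e → gr_(-e)`. -/
noncomputable def kerDim (N : Module.End F V) (P : ℤ → Submodule F V) (e : ℕ) : ℤ :=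
  finrank F (K N P e) - D P (e - 1)

/-- The dimension of the cokernel of `N ^ e : gr_e → gr_(-e)`. -/
noncomputable def cokerDim (N : Module.End F V) (P : ℤ → Submodule F V) (e : ℕ) : ℤ :=
  D P (-e) - finrank F (((P e).map (N ^ e)) ⊔ P (-(e : ℤ) - 1) : Submodule F V)

/-- `N ^ e : gr_e → gr_(-e)` is bijective for all `e ≥ 1`. -/
def Central (N : Module.End F V) (P : ℤ → Submodule F V) : Prop :=
  ∀ e : ℕ, 1 ≤ e → (∀ x ∈ P e, (N ^ e) x ∈ P (-(e : ℤ) - 1) → x ∈ P (e - 1)) ∧
    ∀ y ∈ P (-(e : ℤ)), ∃ x ∈ P e, y - (N ^ e) x ∈ P (-(e : ℤ) - 1)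

variable {N : Module.End F V} {P : ℤ → Submodule F V}

lemma Lowered.pow (h : Lowered N P) (e : ℕ) (k : ℤ) : ∀ x ∈ P k, (N ^ e) x ∈ P (k - 2 * e) := by
  induction e with
  | zero => intro x hx; simpa using hx
  | succ e ih =>
    intro x hx
    rw [pow_succ', Module.End.mul_apply]
    have := h.low _ _ (ih x hx)
    rwa [show k - 2 * (e : ℤ) - 2 = k - 2 * ((e + 1 : ℕ) : ℤ) by push_cast; ring] at this

variable [Module.Finite F V]

lemma rank_le (f : Module.End F V) (S : Submodule F V) :
    (finrank F (LinearMap.range f) : ℤ) ≤ finrank F (S.map f) + (finrank F V - finrank F S) := by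
  have h1 := LinearMap.finrank_range_add_finrank_ker f
  have h2 := LinearMap.finrank_range_add_finrank_ker (f.domRestrict S)
  have h3 : LinearMap.range (f.domRestrict S) = S.map f := by
    ext x
    simp [LinearMap.mem_range, Submodule.mem_map]
  rw [h3] at h2
  have h4 : finrank F (LinearMap.ker (f.domRestrict S)) ≤ finrank F (LinearMap.ker f) := by
    rw [LinearMap.ker_domRestrict]
    have h5 : (LinearMap.ker f).comap S.subtype ≃ₗ[F]
        ((LinearMap.ker f).comap S.subtype).map S.subtype :=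
      Submodule.equivMapOfInjective _ (Submodule.injective_subtype S) _
    rw [h5.finrank_eq]
    exact Submodule.finrank_mono (Submodule.map_comap_le _ _)
  omega

lemma D_mono (h : Lowered N P) {a b : ℤ} (hab : a ≤ b) : D P a ≤ D P b := by
  unfold D
  exact_mod_cast Submodule.finrank_mono (h.mono hab)

/-- The first bound. -/
lemma coker_le (e : ℕ) :
    rk N e + cokerDim N P e ≤ D P (-e) + (finrank F V - D P e) := by
  have h1 := rank_le (N ^ e) (P e)
  have h2 : finrank F ((P e).map (N ^ e)) ≤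
      finrank F (((P e).map (N ^ e)) ⊔ P (-(e : ℤ) - 1) : Submodule F V) :=
    Submodule.finrank_mono le_sup_left
  unfold rk cokerDim
  unfold D
  omega

/-- The second bound. -/
lemma ker_le (e : ℕ) :
    rk N e + kerDim N P e ≤ D P (-e - 1) + (finrank F V - D P (e - 1)) := by
  have h1 := rank_le (N ^ e) (K N P e)
  have h2 : finrank F ((K N P e).map (N ^ e)) ≤ finrank F (P (-(e : ℤ) - 1)) := by
    apply Submodule.finrank_mono
    rintro _ ⟨x, hx, rfl⟩
    exact (Submodule.mem_inf.1 hx).2
  unfold rk kerDim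
  unfold D
  omega

lemma kerDim_nonneg (h : Lowered N P) (e : ℕ) : 0 ≤ kerDim N P e := by
  have h1 : P ((e : ℤ) - 1) ≤ K N P e := by
    refine le_inf (h.mono (by omega)) fun x hx => ?_
    rw [Submodule.mem_comap]
    have h2 := h.pow e _ x hx
    rwa [show (e : ℤ) - 1 - 2 * e = -(e : ℤ) - 1 by ring] at h2
  have h2 := Submodule.finrank_mono h1
  unfold kerDim D
  omega

lemma cokerDim_nonneg (h : Lowered N P) (e : ℕ) : 0 ≤ cokerDim N P e := by
  have h1 : ((P e).map (N ^ e)) ⊔ P (-(e : ℤ) - 1) ≤ P (-(e : ℤ)) := by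
    refine sup_le ?_ (h.mono (by omega))
    rintro _ ⟨x, hx, rfl⟩
    have h2 := h.pow e _ x hx
    rwa [show (e : ℤ) - 2 * e = -(e : ℤ) by ring] at h2
  have h2 := Submodule.finrank_mono h1
  unfold cokerDim D
  omega

/-- A window. -/
lemma exists_window (h : Lowered N P) : ∃ B : ℕ, (∀ a : ℤ, a ≤ -(B : ℤ) → P a = ⊥) ∧
    ∀ a : ℤ, (B : ℤ) ≤ a → P a = ⊤ := by
  obtain ⟨a, ha⟩ := h.bot
  obtain ⟨b, hb⟩ := h.top
  refine ⟨a.natAbs + b.natAbs, fun c hc => ?_, fun c hc => ?_⟩
  · have h1 : P c ≤ P a := h.mono (by omega)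
    rw [ha] at h1
    exact le_bot_iff.1 h1
  · have h1 : P b ≤ P c := h.mono (by omega)
    rw [hb] at h1
    exact top_le_iff.1 h1

/-- The summation by parts. -/
lemma parts (d : ℤ → ℤ) (n : ℤ) (B : ℕ) :
    ∑ k ∈ Finset.Icc (-(B : ℤ)) B, k ^ 2 * (d k - d (k - 1)) =
      ∑ e ∈ Finset.range (B + 1), (e : ℤ) * ((d (-e) + (n - d e)) + (d (-e - 1) + (n - d (e - 1)))) -
        B * (B + 1) * ((n - d B) + d (-(B : ℤ) - 1)) := by
  induction B with
  | zero => simp
  | succ B ih =>
    have h1 : Finset.Icc (-((B + 1 : ℕ) : ℤ)) ((B + 1 : ℕ) : ℤ) =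
        insert (-((B + 1 : ℕ) : ℤ)) (insert ((B + 1 : ℕ) : ℤ) (Finset.Icc (-(B : ℤ)) B)) := by
      ext k
      simp only [Finset.mem_Icc, Finset.mem_insert]
      push_cast
      omega
    have h2 : ((B + 1 : ℕ) : ℤ) ∉ Finset.Icc (-(B : ℤ)) B := by
      simp only [Finset.mem_Icc]
      push_cast
      omega
    have h3 : (-((B + 1 : ℕ) : ℤ)) ∉ insert ((B + 1 : ℕ) : ℤ) (Finset.Icc (-(B : ℤ)) B) := by
      simp only [Finset.mem_Icc, Finset.mem_insert]
      push_cast
      omega
    rw [h1, Finset.sum_insert h3, Finset.sum_insert h2, ih, Finset.sum_range_succ _ (B + 1)]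
    push_cast
    have e1 : (-((B : ℤ) + 1) - 1) = -(B : ℤ) - 1 - 1 := by ring
    have e2 : ((B : ℤ) + 1 - 1) = B := by ring
    have e3 : (-((B : ℤ) + 1)) = -(B : ℤ) - 1 := by ring
    rw [e1, e2, e3]
    ring

lemma rk_eq_zero (h : Lowered N P) {B : ℕ} (hB : ∀ a : ℤ, a ≤ -(B : ℤ) → P a = ⊥)
    (hB' : ∀ a : ℤ, (B : ℤ) ≤ a → P a = ⊤) {e : ℕ} (he : B < e) : rk N e = 0 := by
  have h1 : N ^ e = 0 := by
    ext x
    have h2 := h.pow e B x (by rw [hB' B le_rfl]; exact Submodule.mem_top)
    rw [hB _ (by omega), Submodule.mem_bot] at h2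
    rw [h2, LinearMap.zero_apply]
  unfold rk
  rw [h1, LinearMap.range_zero, finrank_bot]
  rfl

/-- The second moment of the filtration. -/
noncomputable def moment (P : ℤ → Submodule F V) : ℤ := ∑ᶠ k : ℤ, k ^ 2 * (D P k - D P (k - 1))

/-- The number `2 ∑ e rank (N ^ e)`. -/
noncomputable def ranks (N : Module.End F V) : ℤ := ∑ᶠ e : ℕ, 2 * (e : ℤ) * rk N e

/-- The number `∑ e (dim Ker (N ^ e : gr_e → gr_(-e)) + dim Coker (N ^ e : gr_e → gr_(-e)))`. -/
noncomputable def defect (N : Module.End F V) (P : ℤ → Submodule F V) : ℤ :=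
  ∑ᶠ e : ℕ, (e : ℤ) * (kerDim N P e + cokerDim N P e)

lemma moment_eq {B : ℕ} (hB : ∀ a : ℤ, a ≤ -(B : ℤ) → P a = ⊥)
    (hB' : ∀ a : ℤ, (B : ℤ) ≤ a → P a = ⊤) : moment P =
      ∑ e ∈ Finset.range (B + 1), (e : ℤ) * ((D P (-e) + (finrank F V - D P e)) +
        (D P (-e - 1) + (finrank F V - D P (e - 1)))) := by
  have h1 : moment P = ∑ k ∈ Finset.Icc (-(B : ℤ)) B, k ^ 2 * (D P k - D P (k - 1)) := by
    unfold moment
    refine finsum_eq_sum_of_support_subset _ ?_
    intro k hk
    rw [Function.mem_support] at hk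
    rw [Finset.coe_Icc, Set.mem_Icc]
    by_contra hcon
    apply hk
    have h2 : D P k = D P (k - 1) := by
      rcases lt_or_ge k (-(B : ℤ)) with h3 | h3
      · unfold D
        rw [hB k h3.le, hB (k - 1) (by omega)]
      · have h4 : (B : ℤ) < k := by
          by_contra h5
          exact hcon ⟨h3, by omega⟩
        unfold D
        rw [hB' k h4.le, hB' (k - 1) (by omega)]
    rw [h2]
    ring
  have h2 : D P B = finrank F V := by
    unfold D
    rw [hB' B le_rfl, finrank_top]
  have h3 : D P (-(B : ℤ) - 1) = 0 := by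
    unfold D
    rw [hB _ (by omega), finrank_bot]
    rfl
  rw [h1, parts (D P) (finrank F V) B, h2, h3]
  ring

lemma ranks_eq (h : Lowered N P) {B : ℕ} (hB : ∀ a : ℤ, a ≤ -(B : ℤ) → P a = ⊥)
    (hB' : ∀ a : ℤ, (B : ℤ) ≤ a → P a = ⊤) :
    ranks N = ∑ e ∈ Finset.range (B + 1), 2 * (e : ℤ) * rk N e := by
  unfold ranks
  refine finsum_eq_sum_of_support_subset _ ?_
  intro e he
  rw [Function.mem_support] at he
  rw [Finset.mem_coe, Finset.mem_range]
  by_contra hcon
  apply he
  rw [rk_eq_zero h hB hB' (by omega)]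
  ring

lemma defect_eq (h : Lowered N P) {B : ℕ} (hB : ∀ a : ℤ, a ≤ -(B : ℤ) → P a = ⊥)
    (hB' : ∀ a : ℤ, (B : ℤ) ≤ a → P a = ⊤) :
    defect N P = ∑ e ∈ Finset.range (B + 1), (e : ℤ) * (kerDim N P e + cokerDim N P e) := by
  unfold defect
  refine finsum_eq_sum_of_support_subset _ ?_
  intro e he
  rw [Function.mem_support] at he
  rw [Finset.mem_coe, Finset.mem_range]
  by_contra hcon
  apply he
  have h1 := ker_le (N := N) (P := P) e
  have h2 := coker_le (N := N) (P := P) e
  have h3 := kerDim_nonneg h e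
  have h4 := cokerDim_nonneg h e
  rw [rk_eq_zero h hB hB' (by omega)] at h1 h2
  have h5 : D P (-e) = 0 := by
    unfold D
    rw [hB _ (by omega), finrank_bot]
    rfl
  have h6 : D P (-e - 1) = 0 := by
    unfold D
    rw [hB _ (by omega), finrank_bot]
    rfl
  have h7 : D P e = finrank F V := by
    unfold D
    rw [hB' _ (by omega), finrank_top]
  have h8 : D P (e - 1) = finrank F V := by
    unfold D
    rw [hB' _ (by omega), finrank_top]
  have h9 : kerDim N P e = 0 := by omega
  have h10 : cokerDim N P e = 0 := by omega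
  rw [h9, h10]
  ring

/-- **The moment inequality.** -/
theorem moment_le (h : Lowered N P) : ranks N + defect N P ≤ moment P := by
  obtain ⟨B, hB, hB'⟩ := exists_window h
  rw [ranks_eq h hB hB', defect_eq h hB hB', moment_eq hB hB', ← Finset.sum_add_distrib]
  refine Finset.sum_le_sum fun e _ => ?_
  have h1 := ker_le (N := N) (P := P) e
  have h2 := coker_le (N := N) (P := P) e
  have h3 : (0 : ℤ) ≤ e := by omega
  nlinarith

lemma defect_nonneg (h : Lowered N P) : 0 ≤ defect N P := by
  obtain ⟨B, hB, hB'⟩ := exists_window h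
  rw [defect_eq h hB hB']
  exact Finset.sum_nonneg fun e _ => mul_nonneg (by omega)
    (add_nonneg (kerDim_nonneg h e) (cokerDim_nonneg h e))

/-- The defect vanishes if and only if the filtration is the monodromy filtration. -/
theorem defect_zero_iff (h : Lowered N P) : defect N P = 0 ↔ Central N P := by
  obtain ⟨B, hB, hB'⟩ := exists_window h
  have key : ∀ e : ℕ, (kerDim N P e = 0 ∧ cokerDim N P e = 0) ↔
      ((∀ x ∈ P e, (N ^ e) x ∈ P (-(e : ℤ) - 1) → x ∈ P (e - 1)) ∧
      ∀ y ∈ P (-(e : ℤ)), ∃ x ∈ P e, y - (N ^ e) x ∈ P (-(e : ℤ) - 1)) := by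
    intro e
    have h1 : P ((e : ℤ) - 1) ≤ K N P e := by
      refine le_inf (h.mono (by omega)) fun x hx => ?_
      rw [Submodule.mem_comap]
      have h2 := h.pow e _ x hx
      rwa [show (e : ℤ) - 1 - 2 * e = -(e : ℤ) - 1 by ring] at h2
    have h2 : ((P e).map (N ^ e)) ⊔ P (-(e : ℤ) - 1) ≤ P (-(e : ℤ)) := by
      refine sup_le ?_ (h.mono (by omega))
      rintro _ ⟨x, hx, rfl⟩
      have h2 := h.pow e _ x hx
      rwa [show (e : ℤ) - 2 * e = -(e : ℤ) by ring] at h2
    constructor
    · rintro ⟨h3, h4⟩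
      have h5 : P ((e : ℤ) - 1) = K N P e := by
        apply Submodule.eq_of_le_of_finrank_eq h1
        unfold kerDim D at h3
        omega
      have h6 : ((P e).map (N ^ e)) ⊔ P (-(e : ℤ) - 1) = P (-(e : ℤ)) := by
        apply Submodule.eq_of_le_of_finrank_eq h2
        unfold cokerDim D at h4
        omega
      refine ⟨fun x hx hx' => ?_, fun y hy => ?_⟩
      · rw [h5]
        exact Submodule.mem_inf.2 ⟨hx, hx'⟩
      · rw [← h6] at hy
        obtain ⟨_, ⟨x, hx, rfl⟩, z, hz, rfl⟩ := Submodule.mem_sup.1 hy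
        exact ⟨x, hx, by simpa using hz⟩
    · rintro ⟨h3, h4⟩
      have h5 : P ((e : ℤ) - 1) = K N P e := by
        refine le_antisymm h1 fun x hx => ?_
        exact h3 x (Submodule.mem_inf.1 hx).1 (Submodule.mem_inf.1 hx).2
      have h6 : ((P e).map (N ^ e)) ⊔ P (-(e : ℤ) - 1) = P (-(e : ℤ)) := by
        refine le_antisymm h2 fun y hy => ?_
        obtain ⟨x, hx, hxy⟩ := h4 y hy
        rw [show y = (N ^ e) x + (y - (N ^ e) x) by abel]
        exact Submodule.add_mem_sup ⟨x, hx, rfl⟩ hxy
      constructor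
      · unfold kerDim D
        rw [← h5]
        ring
      · unfold cokerDim D
        rw [h6]
        ring
  rw [defect_eq h hB hB']
  rw [Finset.sum_eq_zero_iff_of_nonneg (fun e _ => mul_nonneg (by omega)
    (add_nonneg (kerDim_nonneg h e) (cokerDim_nonneg h e)))]
  constructor
  · intro h0 e he
    rw [← key]
    by_cases heB : e < B + 1
    · have h1 := h0 e (Finset.mem_range.2 heB)
      have h2 : kerDim N P e + cokerDim N P e = 0 := by
        rcases mul_eq_zero.1 h1 with h3 | h3
        · omega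
        · exact h3
      have h3 := kerDim_nonneg h e
      have h4 := cokerDim_nonneg h e
      omega
    · rw [key]
      refine ⟨fun x _ _ => ?_, fun y hy => ⟨0, Submodule.zero_mem _, ?_⟩⟩
      · rw [hB' _ (by omega)]
        exact Submodule.mem_top
      · rw [hB _ (by omega), Submodule.mem_bot] at hy
        rw [hy, map_zero, sub_zero]
        exact Submodule.zero_mem _
  · intro hc e _
    rcases Nat.eq_zero_or_pos e with rfl | he
    · simp
    · have h1 := (key e).2 (hc e he)
      rw [h1.1, h1.2]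
      ring

/-- In the central case the ranks are known. -/
theorem central_eq (h : Lowered N P) (hc : Central N P) : ranks N = moment P := by
  obtain ⟨B, hB, hB'⟩ := exists_window h
  rw [ranks_eq h hB hB', moment_eq hB hB']
  -- the kernel
  have hker : ∀ e : ℕ, 1 ≤ e → ∀ x, (N ^ e) x = 0 → x ∈ P (e - 1) := by
    intro e he x hx
    have step : ∀ j : ℕ, x ∈ P ((e : ℤ) - 1 + j) → x ∈ P ((e : ℤ) - 1) := by
      intro j
      induction j with
      | zero => intro h1; simpa using h1
      | succ j ih =>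
        intro h1
        apply ih
        have h2 := (hc (e + j) (by omega)).1 x (by
          push_cast at h1 ⊢
          rwa [show (e : ℤ) + j = e - 1 + (j + 1) by ring]) (by
          rw [pow_add, (Commute.refl N).pow_pow e j |>.eq, Module.End.mul_apply, hx, map_zero]
          exact Submodule.zero_mem _)
        push_cast at h2 ⊢
        rwa [show (e : ℤ) - 1 + j = e + j - 1 by ring]
    apply step (B + 1)
    rw [hB' _ (by push_cast; omega)]
    exact Submodule.mem_top
  -- the image
  have him : ∀ e : ℕ, 1 ≤ e → (P e).map (N ^ e) = P (-(e : ℤ)) := by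
    intro e he
    apply le_antisymm
    · rintro _ ⟨x, hx, rfl⟩
      have h2 := h.pow e _ x hx
      rwa [show (e : ℤ) - 2 * e = -(e : ℤ) by ring] at h2
    · have step : ∀ j : ℕ, ∀ y ∈ P (-(e : ℤ)), ∃ x ∈ P e, y - (N ^ e) x ∈ P (-(e : ℤ) - j) := by
        intro j
        induction j with
        | zero => intro y hy; exact ⟨0, Submodule.zero_mem _, by simpa using hy⟩
        | succ j ih =>
          intro y hy
          obtain ⟨x, hx, hxy⟩ := ih y hy
          obtain ⟨z, hz, hzy⟩ := (hc (e + j) (by omega)).2 (y - (N ^ e) x) (by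
            push_cast
            rwa [show -((e : ℤ) + j) = -(e : ℤ) - j by ring])
          refine ⟨x + (N ^ j) z, Submodule.add_mem _ hx ?_, ?_⟩
          · have h3 := h.pow j _ z hz
            exact h.mono (by push_cast; omega) h3
          · rw [map_add, ← sub_sub]
            have h4 : (N ^ e) ((N ^ j) z) = (N ^ (e + j)) z := by
              rw [pow_add, Module.End.mul_apply]
            rw [h4]
            push_cast at hzy ⊢
            rwa [show -(e : ℤ) - (j + 1) = -((e : ℤ) + j) - 1 by ring]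
      intro y hy
      obtain ⟨x, hx, hxy⟩ := step B y hy
      rw [hB _ (by omega), Submodule.mem_bot, sub_eq_zero] at hxy
      exact ⟨x, hx, hxy.symm⟩
  refine Finset.sum_congr rfl fun e _ => ?_
  rcases Nat.eq_zero_or_pos e with rfl | he
  · simp
  · have hk := hker e he
    have h1 := LinearMap.finrank_range_add_finrank_ker (N ^ e)
    have h2 : ∀ a : ℤ, (e : ℤ) - 1 ≤ a → (finrank F ((P a).map (N ^ e)) : ℤ) =
        D P a - finrank F (LinearMap.ker (N ^ e)) := by
      intro a ha
      have h3 := LinearMap.finrank_range_add_finrank_ker ((N ^ e).domRestrict (P a))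
      have h4 : LinearMap.range ((N ^ e).domRestrict (P a)) = (P a).map (N ^ e) := by
        ext x
        simp [LinearMap.mem_range, Submodule.mem_map]
      rw [h4, LinearMap.ker_domRestrict] at h3
      have h5 : (LinearMap.ker (N ^ e)).comap (P a).subtype ≃ₗ[F]
          ((LinearMap.ker (N ^ e)).comap (P a).subtype).map (P a).subtype :=
        Submodule.equivMapOfInjective _ (Submodule.injective_subtype _) _
      rw [h5.finrank_eq, Submodule.map_comap_subtype, inf_eq_right.2
        (fun x hx => h.mono ha (hk x (LinearMap.mem_ker.1 hx)))] at h3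
      unfold D
      omega
    have h6 := h2 e (by omega)
    rw [him e he] at h6
    -- the second equality
    have h7 : (P ((e : ℤ) - 1)).map (N ^ e) = P (-(e : ℤ) - 1) := by
      apply le_antisymm
      · rintro _ ⟨x, hx, rfl⟩
        have h2 := h.pow e _ x hx
        rwa [show (e : ℤ) - 1 - 2 * e = -(e : ℤ) - 1 by ring] at h2
      · intro y hy
        have h8 : y ∈ P (-(e : ℤ)) := h.mono (by omega) hy
        rw [← him e he] at h8
        obtain ⟨x, hx, rfl⟩ := h8
        exact ⟨x, (hc e he).1 x hx hy, rfl⟩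
    have h9 := h2 ((e : ℤ) - 1) le_rfl
    rw [h7] at h9
    have h10 : (finrank F (P (-(e : ℤ))) : ℤ) = D P (-e) := rfl
    have h11 : (finrank F (P (-(e : ℤ) - 1)) : ℤ) = D P (-e - 1) := rfl
    have h12 : rk N e = finrank F (LinearMap.range (N ^ e)) := rfl
    have h13 : (D P (-e) + (finrank F V - D P e)) = rk N e := by omega
    have h14 : (D P (-e - 1) + (finrank F V - D P (e - 1))) = rk N e := by omega
    rw [h13, h14]
    ring

/-- **The numerical criterion.** -/
theorem criterion (h : Lowered N P) : ranks N = moment P ↔ Central N P := by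
  constructor
  · intro h1
    rw [← defect_zero_iff h]
    have h2 := moment_le h
    have h3 := defect_nonneg h
    omega
  · exact central_eq h

end Pool.Agent.V2450.Fil
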